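import Mathlib
import Pool.Agent.helper35.DR.SpecZ

/-!
# Project dr: module ZRL
-/

set_option autoImplicit false

namespace Pool.Agent.DR

open Pool.Agent.helper58.DC Pool.Agent.DI

theorem ZRL_sup {Q A : Type} [Group Q] [Group A] (f : Q →* A) (hf : Function.Surjective f)
    (V N : Subgroup A) : V.comap f ⊔ N.comap f = ⊤ ↔ V ⊔ N = ⊤ := by
  rw [Subgroup.comap_sup_eq _ _ _ hf]
  constructor
  · intro h
    rw [← Subgroup.comap_top f] at h
    exact Subgroup.comap_injective hf h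
  · intro h
    rw [h, Subgroup.comap_top]

open Classical in
theorem ZRL_kC {G E A : Type} [Group G] [Group E] [Group A] (X : Extension G E A)
    (p : ℕ) (M : Ideal (integralClosure ℤ ℂ)) (χ : G → ℂ) (D : ℤ) (U : Subgroup A)
    (C : Finset (Subgroup G)) (F : Finset (G → ℂ)) (hF : ∀ ψ, ψ ∈ F ↔ ψ ∈ IrrOn (nrm C)) :
    (kC X p M χ D U C : ℤ) = ∑ ψ ∈ F, if Induces M ψ χ ∧ Defect p (nrm C) ψ D ∧
      (X.stab C ψ).map X.proj = U then (1 : ℤ) else 0 := by
  rw [Finset.sum_boole, kC]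
  congr 1
  apply Nat.subtype_card
  intro ψ
  rw [Finset.mem_filter, hF]
  tauto

open Classical in
/-- the inner sum -/
theorem ZRL_inner (hGVM : GVM_stmt) {G E A : Type} [Group G] [Group E] [Group A] [Finite A]
    (X : Extension G E A)
    (p : ℕ) (M : Ideal (integralClosure ℤ ℂ)) (χ : G → ℂ) (D : ℤ) (N : Subgroup A)
    (hN : MinAb N) [Fintype {V : Subgroup A // IsCpl N V}]
    (C : Finset (Subgroup G)) (hfin : (IrrOn (nrm C)).Finite)
    (cond : (G → ℂ) → Prop) (rel : (G → ℂ) → ℤ) (a z : ℤ)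
    (hcond : ∀ ψ ∈ IrrOn (nrm C), (cond ψ ↔ (X.stab C ψ).map X.proj ⊔ N = ⊤))
    (h1 : ∀ ψ ∈ IrrOn (nrm C), (X.stab C ψ).map X.proj = ⊤ →
      rel ψ = if Defect p (nrm C) ψ D then a else 0)
    (h2 : ∀ ψ ∈ IrrOn (nrm C), (X.stab C ψ).map X.proj ⊓ N = ⊥ →
      rel ψ = if Defect p (nrm C) ψ D then z else 0) :
    ∑ᶠ ψ ∈ {ψ : G → ℂ | ψ ∈ IrrOn (nrm C) ∧ Induces M ψ χ ∧ cond ψ}, rel ψ =
      a * (kC X p M χ D ⊤ C : ℤ) + z * ∑ V : {V : Subgroup A // IsCpl N V},
        (kC X p M χ D V.1 C : ℤ) := by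
  obtain ⟨g1, g2, -⟩ := hGVM A N hN
  set F : Finset (G → ℂ) := hfin.toFinset with hFdef
  have hF : ∀ ψ, ψ ∈ F ↔ ψ ∈ IrrOn (nrm C) := fun ψ => by rw [hFdef, Set.Finite.mem_toFinset]
  have hL : ∑ᶠ ψ ∈ {ψ : G → ℂ | ψ ∈ IrrOn (nrm C) ∧ Induces M ψ χ ∧ cond ψ}, rel ψ =
      ∑ ψ ∈ F, if Induces M ψ χ ∧ cond ψ then rel ψ else 0 := by
    rw [← Finset.sum_filter]
    rw [← finsum_mem_coe_finset]
    apply finsum_mem_congr
    · ext ψ
      rw [Finset.mem_coe, Finset.mem_filter, hF]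
      rfl
    · intro ψ _
      rfl
  rw [hL, ZRL_kC X p M χ D ⊤ C F hF]
  simp_rw [ZRL_kC X p M χ D _ C F hF]
  rw [Finset.sum_comm, Finset.mul_sum, Finset.mul_sum, ← Finset.sum_add_distrib]
  refine Finset.sum_congr rfl fun ψ hψ => ?_
  rw [hF] at hψ
  by_cases hI : Induces M ψ χ
  · simp only [hI, true_and]
    by_cases hT : (X.stab C ψ).map X.proj ⊔ N = ⊤
    · rw [if_pos ((hcond ψ hψ).2 hT)]
      rcases g1 _ hT with hV | hV
      · rw [h1 ψ hψ hV]
        have hz : ∑ V : {V : Subgroup A // IsCpl N V}, (if Defect p (nrm C) ψ D ∧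
            (X.stab C ψ).map X.proj = V.1 then (1 : ℤ) else 0) = 0 := by
          apply Finset.sum_eq_zero
          rintro ⟨V, hVV⟩ _
          rw [if_neg]
          rintro ⟨_, h⟩
          exact (g2 V hVV).1 (h.symm.trans hV)
        rw [hz, mul_zero, add_zero]
        by_cases hD : Defect p (nrm C) ψ D
        · rw [if_pos hD, if_pos ⟨hD, hV⟩, mul_one]
        · rw [if_neg hD, if_neg (fun h => hD h.1), mul_zero]
      · rw [h2 ψ hψ hV.1]
        have hz : ∑ V : {V : Subgroup A // IsCpl N V}, (if Defect p (nrm C) ψ D ∧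
            (X.stab C ψ).map X.proj = V.1 then (1 : ℤ) else 0) =
            if Defect p (nrm C) ψ D then 1 else 0 := by
          rw [Finset.sum_eq_single ⟨_, hV⟩]
          · by_cases hD : Defect p (nrm C) ψ D
            · rw [if_pos ⟨hD, rfl⟩, if_pos hD]
            · rw [if_neg hD, if_neg (fun h => hD h.1)]
          · rintro ⟨V, hVV⟩ _ hne
            rw [if_neg]
            rintro ⟨_, h⟩
            exact hne (Subtype.ext h.symm)
          · intro h
            exact absurd (Finset.mem_univ _) h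
        have hz2 : (if Defect p (nrm C) ψ D ∧ (X.stab C ψ).map X.proj = ⊤ then (1 : ℤ) else 0) =
            0 := if_neg (fun h => (g2 _ hV).1 h.2)
        rw [hz, hz2, mul_zero, zero_add]
        by_cases hD : Defect p (nrm C) ψ D
        · rw [if_pos hD, if_pos hD, mul_one]
        · rw [if_neg hD, if_neg hD, mul_zero]
    · rw [if_neg (fun h => hT ((hcond ψ hψ).1 h))]
      have h3 : (X.stab C ψ).map X.proj ≠ ⊤ := by
        intro h
        exact hT (by rw [h, top_sup_eq])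
      have hz : ∑ V : {V : Subgroup A // IsCpl N V}, (if Defect p (nrm C) ψ D ∧
            (X.stab C ψ).map X.proj = V.1 then (1 : ℤ) else 0) = 0 := by
        apply Finset.sum_eq_zero
        rintro ⟨V, hVV⟩ _
        rw [if_neg]
        rintro ⟨_, h⟩
        exact hT (by rw [h]; exact hVV.2)
      rw [hz, if_neg (fun h => h3 h.2), mul_zero, mul_zero, add_zero]
  · simp [hI]

theorem ZRL (hD1 : D1_stmt) (hB2 : B2_stmt) (hGVM : GVM_stmt) (hRLB : RLB_stmt) (hZFN : ZFN_stmt)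
    (hZST : ZST_stmt) (hZFL : ZFL_stmt) (hZCO : ZCO_stmt) : ZRL_stmt := by
  classical
  intro G E A _ _ _ _ _ _ X p _ M hM hpM hop χ hχ hst N _ hN r hr hrp hNr hInv D hD
  set n : ℕ := r ^ padicValNat r (Nat.card A) with hn
  have hn1 : 1 ≤ n := Nat.one_le_pow _ _ hr.pos
  obtain ⟨-, hfZ, hfC, hsur, -, -, hpow, hcard, hquo, hE⟩ := hZFN A n hn1
  obtain ⟨hfFC, -, -, -, -⟩ := hE G E X
  have hpp : p.Prime := Fact.out
  -- orders
  obtain ⟨j, hj⟩ := hpow r hr ⟨_, rfl⟩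
  have hpz : ¬ p ∣ Nat.card (Zn A n) := by
    rw [hj]
    intro h
    exact hrp ((Nat.prime_dvd_prime_iff_eq hpp hr).1 (hpp.dvd_of_dvd_pow h)).symm
  have : Fact r.Prime := ⟨hr⟩
  obtain ⟨k, hk⟩ := (IsPGroup.iff_card.1 hNr)
  have hpN : ¬ p ∣ Nat.card N := by
    rw [hk]
    intro h
    exact hrp ((Nat.prime_dvd_prime_iff_eq hpp hr).1 (hpp.dvd_of_dvd_pow h)).symm
  have hpNh : ¬ p ∣ Nat.card (N.comap (prC A n)) := by
    rw [hcard N]
    intro h
    rcases (Nat.Prime.dvd_mul hpp).1 h with h | h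
    · exact hpN h
    · exact hpz h
  obtain ⟨e⟩ := hquo N
  have hInv' : InvFor p M (Cv A n ⧸ N.comap (prC A n)) := by
    intro G' E' A' _ _ _ _ _ X' hf hop' χ' hχ' hpos d U
    obtain ⟨f⟩ := hf
    exact hInv G' E' A' X' ⟨f.trans e⟩ hop' χ' hχ' hpos d U
  have hstX : Stable (XC X n) M χ := (hZST G E A X n ∅ χ).2.2 M χ hst
  have hrel := hRLB G (FC X n) (Cv A n) (XC X n) p M hM hpM hop χ hχ hstX
    (N.comap (prC A n)) hpNh hInv' D hD
  unfold Rel at hrel
  set κ : ℤ := (GN (N.comap (prC A n)) 1 (fun _ => True) : ℤ) with hκ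
  set z : ℤ := (Nat.card (Zn A n) : ℤ) with hz
  haveI : Fintype {V : Subgroup A // IsCpl N V} := Fintype.ofFinite _
  have hRfin : {C : Finset (Subgroup G) | IsRadical p C}.Finite := Set.toFinite _
  set R : Finset (Finset (Subgroup G)) := hRfin.toFinset with hR
  have hmem : ∀ C, C ∈ R ↔ IsRadical p C := fun C => by
    rw [hR, Set.Finite.mem_toFinset]; rfl
  have hfs : ∀ f : Finset (Subgroup G) → ℤ,
      ∑ᶠ C ∈ {C : Finset (Subgroup G) | IsRadical p C}, f C = ∑ C ∈ R, f C := by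
    intro f
    rw [finsum_mem_eq_finite_toFinset_sum _ hRfin]
  have hinner : ∀ C ∈ R, ∑ᶠ ψ ∈ {ψ : G → ℂ | ψ ∈ IrrOn (nrm C) ∧ Induces M ψ χ ∧
      ((XC X n).stab C ψ).map (XC X n).proj ⊔ N.comap (prC A n) = ⊤},
        relT (XC X n) p (N.comap (prC A n)) C ψ D =
      ((Nat.card N : ℤ) * z * Nat.card (nrm C) * κ) * (kC X p M χ D ⊤ C : ℤ) +
        (z * Nat.card (nrm C) * z) * ∑ V : {V : Subgroup A // IsCpl N V},
        (kC X p M χ D V.1 C : ℤ) := by
    intro C hC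
    rw [hmem] at hC
    have hne : C.Nonempty := by
      obtain ⟨P, hP, -⟩ := hC.radical
      exact ⟨P, hP⟩
    refine ZRL_inner hGVM X p M χ D N hN C (hB2 G (nrm C)).1 _ _ _ _ ?_ ?_ ?_
    · intro ψ _
      rw [(hZST G E A X n C ψ).2.1, ZRL_sup _ hsur]
    · intro ψ hψ hV
      rw [hZFL G E A X p N inferInstance r hr hrp hNr C hC.chain hne ψ hψ hV D]
      by_cases h : Defect p (nrm C) ψ D
      · rw [if_pos h, if_pos h]
      · rw [if_neg h, if_neg h, mul_zero]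
    · intro ψ hψ hV
      rw [hZCO G E A X p n hn1 hpz N C hC.chain hne ψ hψ hV D]
      by_cases h : Defect p (nrm C) ψ D
      · rw [if_pos h, if_pos h]
      · rw [if_neg h, if_neg h, mul_zero]
  rw [hfs, Finset.sum_congr rfl (fun C hC => by rw [hinner C hC])] at hrel
  -- the alternating sums
  have halt : ∀ U : Subgroup A, (Nat.card G : ℤ) * altSum X p M χ D U =
      ∑ C ∈ R, (-1) ^ (C.card + 1) * ((Nat.card (nrm C) : ℤ) * kC X p M χ D U C) := by
    intro U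
    rw [hD1 G E A X p M χ hχ D U, hfs]
  have hG0 : (Nat.card G : ℤ) ≠ 0 := by
    exact_mod_cast Nat.card_pos.ne'
  have hz0 : z ≠ 0 := by
    rw [hz]
    exact_mod_cast Nat.card_pos.ne'
  rw [finsum_eq_sum_of_fintype]
  have hkey : (z * (Nat.card G : ℤ)) * ((Nat.card N : ℤ) * κ * altSum X p M χ D ⊤ +
      z * ∑ V : {V : Subgroup A // IsCpl N V}, altSum X p M χ D V.1) = 0 := by
    rw [← hrel]
    have e1 : (z * (Nat.card G : ℤ)) * ((Nat.card N : ℤ) * κ * altSum X p M χ D ⊤ +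
        z * ∑ V : {V : Subgroup A // IsCpl N V}, altSum X p M χ D V.1) =
        z * (Nat.card N : ℤ) * κ * ((Nat.card G : ℤ) * altSum X p M χ D ⊤) +
        z * z * ∑ V : {V : Subgroup A // IsCpl N V},
          ((Nat.card G : ℤ) * altSum X p M χ D V.1) := by
      rw [← Finset.mul_sum]; ring
    rw [e1, halt]
    simp_rw [halt]
    rw [Finset.sum_comm, Finset.mul_sum, Finset.mul_sum, ← Finset.sum_add_distrib]
    refine Finset.sum_congr rfl fun C _ => ?_
    rw [← Finset.mul_sum, ← Finset.mul_sum]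
    ring
  rcases mul_eq_zero.1 hkey with h | h
  · exact absurd h (mul_ne_zero hz0 hG0)
  · exact h

end Pool.Agent.DR
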