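import Mathlib
import Pool.Agent.helper35.DR.SpecP

/-!
# Project dr: module PAL
-/

set_option autoImplicit false

namespace Pool.Agent.DR

open Pool.Agent.helper58.DC Pool.Agent.DI

theorem PAL_dfc {G : Type} [Group G] (p : ℕ) (C : Finset (Subgroup G)) (ψ : G → ℂ) (d : ℤ) (n : ℕ)
    (hn : ψ 1 = n) : Defect p (nrm C) ψ d ↔ dfc p (C, ψ) = d := by
  have h1 : ⌊(ψ 1).re⌋₊ = n := by
    rw [hn, Complex.natCast_re, Nat.floor_natCast]
  unfold Defect dfc
  constructor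
  · rintro ⟨m, hm, hd⟩
    have hmn : m = n := by
      rw [hn] at hm
      exact_mod_cast hm.symm
    show (padicValNat p (Nat.card (nrm C)) : ℤ) - padicValNat p ⌊(ψ 1).re⌋₊ = d
    rw [h1, hd, hmn]
  · intro h
    refine ⟨n, hn, ?_⟩
    rw [← h]
    show (padicValNat p (Nat.card (nrm C)) : ℤ) - padicValNat p ⌊(ψ 1).re⌋₊ = _
    rw [h1]

theorem PAL (hD1 : D1_stmt) (hB2 : B2_stmt) : PAL_stmt := by
  classical
  intro G E A _ _ _ _ X p M χ hχ d U
  have hRfin : {C : Finset (Subgroup G) | IsRadical p C}.Finite := Set.toFinite _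
  set R : Finset (Finset (Subgroup G)) := hRfin.toFinset with hR
  have hmem : ∀ C, C ∈ R ↔ IsRadical p C := fun C => by
    rw [hR, Set.Finite.mem_toFinset]; rfl
  set F : Finset (G → ℂ) := R.biUnion fun C => (hB2 G (nrm C)).1.toFinset with hF
  have hFmem : ∀ C ∈ R, ∀ ψ ∈ IrrOn (nrm C), ψ ∈ F := by
    intro C hC ψ hψ
    rw [hF, Finset.mem_biUnion]
    exact ⟨C, hC, by rw [Set.Finite.mem_toFinset]; exact hψ⟩
  rw [hD1 G E A X p M χ hχ d U, finsum_mem_eq_finite_toFinset_sum _ hRfin, ← hR]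
  have hS : ∑ᶠ x ∈ {x : Finset (Subgroup G) × (G → ℂ) | IsPair p M χ x ∧ dfc p x = d ∧ Vx X x = U},
        (-1) ^ (x.1.card + 1) * (Nat.card (nrm x.1) : ℤ) =
      ∑ x ∈ (R ×ˢ F).filter (fun x => IsPair p M χ x ∧ dfc p x = d ∧ Vx X x = U),
        (-1) ^ (x.1.card + 1) * (Nat.card (nrm x.1) : ℤ) := by
    rw [← finsum_mem_coe_finset]
    apply finsum_mem_congr
    · ext x
      rw [Finset.mem_coe, Finset.mem_filter, Finset.mem_product]
      constructor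
      · intro hx
        have h1 : x.1 ∈ R := (hmem _).2 hx.1.1
        exact ⟨⟨h1, hFmem _ h1 _ hx.1.2.1⟩, hx⟩
      · exact fun hx => hx.2
    · intro x _
      rfl
  rw [hS, Finset.sum_filter, Finset.sum_product]
  refine Finset.sum_congr rfl fun C hC => ?_
  have hk : (kC X p M χ d U C : ℤ) = ∑ ψ ∈ F, if IsPair p M χ (C, ψ) ∧ dfc p (C, ψ) = d ∧
      Vx X (C, ψ) = U then (1 : ℤ) else 0 := by
    rw [Finset.sum_boole, kC]
    congr 1
    apply Nat.subtype_card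
    intro ψ
    rw [Finset.mem_filter]
    constructor
    · rintro ⟨-, ⟨-, h1, h2⟩, h3, h4⟩
      obtain ⟨n, -, hn, -⟩ := ((hB2 G (nrm C)).2 ψ h1).1
      exact ⟨h1, (PAL_dfc p C ψ d n hn).2 h3, h2, h4⟩
    · rintro ⟨h1, h2, h3, h4⟩
      obtain ⟨n, -, hn, -⟩ := ((hB2 G (nrm C)).2 ψ h1).1
      exact ⟨hFmem C hC ψ h1, ⟨(hmem C).1 hC, h1, h3⟩, (PAL_dfc p C ψ d n hn).1 h2, h4⟩
  rw [hk, Finset.mul_sum, Finset.mul_sum]
  refine Finset.sum_congr rfl fun ψ _ => ?_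
  split_ifs
  · rw [mul_one]
  · rw [mul_zero, mul_zero]

end Pool.Agent.DR
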